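import Mathlib
import Pool.Agent.H381R4.BP.Stubs

/-! Ball volumes (`S_VBA`). -/

set_option autoImplicit false
open MeasureTheory Matrix Filter Topology
open scoped ENNReal BigOperators Pointwise

namespace Pool.Agent.H406BP
open Pool.Agent.H381CM Pool.Agent.H381BP

theorem om_ne_zero (m : ℕ) : om m ≠ 0 :=
  (Metric.measure_closedBall_pos volume (0 : E m) one_pos).ne'

theorem om_ne_top (m : ℕ) : om m ≠ ⊤ :=
  measure_closedBall_lt_top.ne

theorem BV_eq (d : ℕ) : BV d = (WithLp.toLp 2) ⁻¹' (Metric.closedBall (0 : E d) 1) := by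
  ext x
  simp only [BV, Set.mem_setOf_eq, Set.mem_preimage, Metric.mem_closedBall, dist_zero_right]
  rw [EuclideanSpace.norm_eq]
  rw [Real.sqrt_le_one]
  simp

theorem T_VBA : S_VBA := by
  refine ⟨fun d => ⟨?_, ?_, ?_⟩, fun m => ⟨om_ne_zero m, om_ne_top m⟩⟩
  · rw [BV_eq]
    exact (PiLp.volume_preserving_toLp (Fin d)).measure_preimage
      (Metric.isClosed_closedBall.measurableSet.nullMeasurableSet)
  · rw [BV_eq]
    exact (PiLp.volume_preserving_toLp (Fin d)).measurable Metric.isClosed_closedBall.measurableSet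
  · refine (Metric.isBounded_closedBall (x := (0 : V d)) (r := 1)).subset ?_
    intro x hx
    rw [Metric.mem_closedBall, dist_zero_right, pi_norm_le_iff_of_nonneg zero_le_one]
    intro i
    have h1 : x i ^ 2 ≤ 1 :=
      le_trans (Finset.single_le_sum (f := fun i => x i ^ 2) (fun j _ => sq_nonneg _)
        (Finset.mem_univ i)) hx
    rw [Real.norm_eq_abs]
    exact (sq_le_one_iff_abs_le_one _).1 h1

end Pool.Agent.H406BP

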